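import Mathlib
import Pool.Agent.Helper442.FE.Main
import Pool.Agent.Helper442.FE.Sbo2

/-!
# A matroid with a certificate for the family of its cyclic flats is a gammoid
-/

set_option autoImplicit false
set_option linter.unusedSectionVars false

namespace Pool.Agent.H362CF

open Set Pool.Agent.Helper442.FE

/-- A cyclic flat: a flat which is a union of circuits. -/
def IsCyclicFlat {α : Type} (M : Matroid α) (Z : Set α) : Prop :=
  M.IsFlat Z ∧ ∀ e ∈ Z, ∃ C ⊆ Z, M.IsCircuit C ∧ e ∈ C

/-- The rank function is determined by the cyclic flats and their ranks. -/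
theorem exists_cyclicFlat {α : Type} {M : Matroid α} (hM : M.E.Finite) {J : Set α} (hJ : J ⊆ M.E) :
    ∃ Z, IsCyclicFlat M Z ∧ rk M Z + ((J \ Z).ncard : ℤ) ≤ rk M J := by
  classical
  set J' : Set α := {e | ∃ C ⊆ J, M.IsCircuit C ∧ e ∈ C} with hJ'
  have hJJ : J' ⊆ J := by
    rintro e ⟨C, hC, _, he⟩
    exact hC he
  have hJE : J' ⊆ M.E := hJJ.trans hJ
  have hsub : J' ⊆ M.closure J' := M.subset_closure J' hJE
  refine ⟨M.closure J', ⟨M.isFlat_closure J', ?_⟩, ?_⟩
  · intro e he
    by_cases h : e ∈ J'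
    · obtain ⟨C, hC, hcirc, heC⟩ := h
      refine ⟨C, Subset.trans ?_ hsub, hcirc, heC⟩
      intro f hf
      exact ⟨C, hC, hcirc, hf⟩
    · obtain ⟨C, hC, hcirc, heC⟩ := Matroid.exists_isCircuit_of_mem_closure he h
      exact ⟨C, hC.trans (insert_subset he hsub), hcirc, heC⟩
  · obtain ⟨I, hI⟩ := M.exists_isBasis J'
    have hind : M.Indep (I ∪ (J \ J')) := by
      by_contra hcon
      have hsubE : I ∪ (J \ J') ⊆ M.E :=
        union_subset (hI.subset.trans hJE) (sdiff_subset.trans hJ)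
      have hdep : M.Dep (I ∪ (J \ J')) := ⟨hcon, hsubE⟩
      obtain ⟨C, hC, hcirc⟩ := hdep.exists_isCircuit_subset
      have hCJ : C ⊆ J := hC.trans (union_subset (hI.subset.trans hJJ) sdiff_subset)
      have hCJ' : C ⊆ J' := fun e he => ⟨C, hCJ, hcirc, he⟩
      have hCI : C ⊆ I := by
        intro e he
        rcases hC he with h | h
        · exact h
        · exact absurd (hCJ' he) h.2
      exact hcirc.not_indep (hI.indep.subset hCI)
    have hfinI : I.Finite := hM.subset (hI.subset.trans hJE)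
    have hfinJ : J.Finite := hM.subset hJ
    have h1 : rk M (M.closure J') = (I.ncard : ℤ) := by
      rw [← rk_indep hM hI.indep]
      unfold rk
      rw [M.eRk_closure_eq, hI.eRk_eq_eRk]
    have h2 : rk M (I ∪ (J \ J')) = ((I ∪ (J \ J')).ncard : ℤ) := rk_indep hM hind
    have h3 : (I ∪ (J \ J')).ncard = I.ncard + (J \ J').ncard := by
      refine Set.ncard_union_eq ?_ hfinI (hfinJ.subset sdiff_subset)
      rw [Set.disjoint_left]
      intro e he h
      exact h.2 (hI.subset he)
    have h4 : rk M (I ∪ (J \ J')) ≤ rk M J :=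
      rk_mono hM (union_subset (hI.subset.trans hJJ) sdiff_subset)
    have h5 : (J \ M.closure J').ncard ≤ (J \ J').ncard :=
      Set.ncard_le_ncard (sdiff_subset_sdiff_right hsub) (hfinJ.subset sdiff_subset)
    rw [h1]
    rw [h2, h3] at h4
    push_cast at h4
    have h6 : ((J \ M.closure J').ncard : ℤ) ≤ ((J \ J').ncard : ℤ) := by exact_mod_cast h5
    linarith

section

variable {ι : Type} [Fintype ι] {α : Type}

/-- A certificate for a family of sets which determines the rank function represents the matroid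
as a gammoid. -/
theorem gammoid_of_cert' {M : Matroid α} (hM : M.E.Finite) {T : ι → Set α} (hT : ∀ i, T i ⊆ M.E)
    (hgen : ∀ A ⊆ M.E, ∃ i, rk M (T i) + ((A \ T i).ncard : ℤ) ≤ rk M A) (hc : Cert M T) :
    Gammoid α M := by
  classical
  obtain ⟨h, h1, h2⟩ := hc
  obtain ⟨C, K, hC, hK, tc, tk, hw⟩ := exists_count h
  have hEf : Finite M.E := hM
  obtain ⟨μ, hμ1, hμ2⟩ := exists_match tc tk (by
    intro U hU
    have h3 := h1 U hU
    rw [hw] at h3
    have h4 := rk_nonneg M (cell M.E T U)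
    omega)
  set te : M.E → Set ι := fun e => ty T e with hte
  set G : M.E ⊕ C → M.E ⊕ C → Prop := dg te tc tk μ with hG
  set V : Set (M.E ⊕ C) := Sum.inr '' (range μ)ᶜ with hV
  obtain ⟨N, hN⟩ := exists_induced G (Matroid.freeOn V) (range Sum.inl)
  have hNE : N.E = range Sum.inl := hN.1
  have hNf : N.E.Finite := Set.toFinite _
  -- the sets of the family
  have hfam : ∀ i, rk N (Sum.inl '' {e : M.E | (e : α) ∈ T i}) ≤ rk M (T i) := by
    intro i
    rw [rk_induced hN (image_subset_range _ _)]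
    set J : Set M.E := {e : M.E | (e : α) ∈ T i} with hJdef
    have hJ : ∀ e : M.E, e ∈ J ↔ i ∈ te e := fun e => Iff.rfl
    set x : Set (M.E ⊕ C) := Sum.inl '' J ∪ Sum.inr '' {c | i ∈ tc c} with hx
    set y : Set (M.E ⊕ C) := Sum.inl '' J ∪ Sum.inr '' {c | (∃ k, μ k = c ∧ i ∈ tk k) ∨
      (c ∉ range μ ∧ i ∈ tc c)} with hy
    have hval : Valid G x y := by
      rintro (e | c) (e' | c') hg hu
      · exact hg.elim
      · have hg' : te e ⊆ tc c' := hg
        have hu' : e ∈ J := by
          rcases hu with ⟨e', he', h⟩ | ⟨c, _, h⟩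
          · rwa [← Sum.inl_injective h]
          · cases h
        exact Or.inr ⟨c', hg' ((hJ e).1 hu'), rfl⟩
      · exact hg.elim
      · obtain ⟨k, hk1, hk2⟩ : ∃ k, μ k = c ∧ tk k ⊆ tc c' := hg
        rcases hu with ⟨e', _, h⟩ | ⟨c₀, hc₀, h⟩
        · cases h
        · have hcc := Sum.inr_injective h
          subst hcc
          rcases hc₀ with ⟨k', hk', hi'⟩ | ⟨hn, _⟩
          · rw [← hk1] at hk'
            have := hμ1 hk'
            subst this
            exact Or.inr ⟨c', hk2 hi', rfl⟩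
          · exact absurd ⟨k, hk1⟩ hn
    refine le_trans (mc_le hval) ?_
    have e1 : Sum.inl '' J \ x = ∅ := by
      rw [hx]
      ext t
      simp only [mem_sdiff, mem_union, mem_empty_iff_false, iff_false, not_and, not_not]
      exact fun h => Or.inl h
    unfold cutv
    rw [e1, rk_freeOn, Set.ncard_empty]
    have e2 : (x \ y).ncard + (y ∩ V).ncard + {k | tk k ∈ pr i}.ncard ≤ {c | tc c ∈ pr i}.ncard := by
      have d1 : Disjoint (x \ y) (y ∩ V) := by
        rw [Set.disjoint_left]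
        intro t h1 h2
        exact h1.2 h2.1
      have d2 : Disjoint ((x \ y) ∪ (y ∩ V)) ((fun k => (Sum.inr (μ k) : M.E ⊕ C)) '' {k | tk k ∈ pr i}) := by
        rw [Set.disjoint_left]
        rintro t h1 ⟨k, hk, rfl⟩
        rcases h1 with h1 | h1
        · exact h1.2 (Or.inr ⟨μ k, Or.inl ⟨k, rfl, hk⟩, rfl⟩)
        · obtain ⟨c, hc, he⟩ := h1.2
          exact hc ⟨k, (Sum.inr_injective he).symm⟩
      have inj : Function.Injective (fun k => (Sum.inr (μ k) : M.E ⊕ C)) := by
        intro a b hab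
        exact hμ1 (Sum.inr_injective hab)
      rw [← Set.ncard_union_eq d1, ← Set.ncard_image_of_injective {k | tk k ∈ pr i} inj,
        ← Set.ncard_union_eq d2,
        ← Set.ncard_image_of_injective {c | tc c ∈ pr i} (Sum.inr_injective (α := M.E))]
      refine Set.ncard_le_ncard ?_ (Set.toFinite _)
      rintro t ((ht | ht) | ht)
      · obtain ⟨htx, hty⟩ := ht
        rcases htx with htx | htx
        · exact absurd (Or.inl htx) hty
        · exact htx
      · obtain ⟨hty, c, hc, rfl⟩ := ht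
        rcases hty with ⟨e', _, h⟩ | ⟨c₀, hc₀, h⟩
        · cases h
        · have hcc := Sum.inr_injective h
          subst hcc
          rcases hc₀ with ⟨k', hk', hi'⟩ | ⟨_, h'⟩
          · exact absurd ⟨k', hk'⟩ hc
          · exact ⟨c₀, h', rfl⟩
      · obtain ⟨k, hk, rfl⟩ := ht
        exact ⟨μ k, hμ2 k hk, rfl⟩
    have e3 := h2 i
    rw [hw] at e3
    push_cast
    omega
  -- the rank functions agree
  have hrk : ∀ J : Set M.E, rk N (Sum.inl '' J) = rk M (Subtype.val '' J) := by
    intro J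
    apply le_antisymm
    · obtain ⟨i, hi⟩ := hgen (Subtype.val '' J) (by rintro _ ⟨x, _, rfl⟩; exact x.2)
      have g1 : rk N (Sum.inl '' J) ≤ rk N (Sum.inl '' {e : M.E | (e : α) ∈ T i} ∪
          Sum.inl '' {e : M.E | e ∈ J ∧ (e : α) ∉ T i}) := by
        refine rk_mono hNf ?_
        rintro _ ⟨e, he, rfl⟩
        by_cases h : (e : α) ∈ T i
        · exact Or.inl ⟨e, h, rfl⟩
        · exact Or.inr ⟨e, ⟨he, h⟩, rfl⟩
      have g2 := rk_union_le hNf (Sum.inl '' {e : M.E | (e : α) ∈ T i} : Set (M.E ⊕ C))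
        (B := Sum.inl '' {e : M.E | e ∈ J ∧ (e : α) ∉ T i}) (Set.toFinite _)
      have g3 : (Sum.inl '' {e : M.E | e ∈ J ∧ (e : α) ∉ T i} : Set (M.E ⊕ C)).ncard ≤
          (Subtype.val '' J \ T i).ncard := by
        rw [Set.ncard_image_of_injective _ (Sum.inl_injective (β := C)),
          ← Set.ncard_image_of_injective _ Subtype.val_injective]
        refine Set.ncard_le_ncard ?_ (((Set.toFinite J).image _).subset sdiff_subset)
        rintro _ ⟨e, ⟨he, h⟩, rfl⟩
        exact ⟨⟨e, he, rfl⟩, h⟩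
      have g4 : ((Sum.inl '' {e : M.E | e ∈ J ∧ (e : α) ∉ T i} : Set (M.E ⊕ C)).ncard : ℤ) ≤
          ((Subtype.val '' J \ T i).ncard : ℤ) := by exact_mod_cast g3
      have g5 := hfam i
      linarith
    · rw [rk_induced hN (image_subset_range _ _)]
      obtain ⟨x, y, hval, e⟩ := exists_mc G (Matroid.freeOn V) (Sum.inl '' J)
      rw [e]
      unfold cutv
      rw [rk_freeOn]
      set U : Set (Set ι) := {σ | (∃ e : M.E, Sum.inl e ∈ y ∧ te e ⊆ σ) ∨
        (∃ k, Sum.inr (μ k) ∈ y ∧ tk k ⊆ σ)} with hU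
      have hUu : IsUpperSet U := by
        rintro σ σ' hle (⟨e, he, hs⟩ | ⟨k, hk, hs⟩)
        · exact Or.inl ⟨e, he, hs.trans hle⟩
        · exact Or.inr ⟨k, hk, hs.trans hle⟩
      have e1 := h1 U hUu
      rw [hw] at e1
      -- colours of types in `U` are in `x`
      have e2 : ∀ c, tc c ∈ U → Sum.inr c ∈ x := by
        rintro c (⟨e, he, hs⟩ | ⟨k, hk, hs⟩)
        · exact hval (Sum.inl e) (Sum.inr c) hs he
        · exact hval (Sum.inr (μ k)) (Sum.inr c) ⟨k, rfl, hs⟩ hk
      have e3 : {c | tc c ∈ U}.ncard ≤ ((x \ y) ∩ range Sum.inr).ncard + (y ∩ V).ncard +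
          {k | tk k ∈ U}.ncard := by
        have inj : Function.Injective (fun k => (Sum.inr (μ k) : M.E ⊕ C)) := by
          intro a b hab
          exact hμ1 (Sum.inr_injective hab)
        rw [← Set.ncard_image_of_injective {c | tc c ∈ U} (Sum.inr_injective (α := M.E)),
          ← Set.ncard_image_of_injective {k | tk k ∈ U} inj]
        refine le_trans (Set.ncard_le_ncard (t := ((x \ y) ∩ range Sum.inr) ∪ (y ∩ V) ∪
          (fun k => (Sum.inr (μ k) : M.E ⊕ C)) '' {k | tk k ∈ U}) ?_ (Set.toFinite _)) ?_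
        · rintro _ ⟨c, hc, rfl⟩
          have hcx := e2 c hc
          by_cases hcy : (Sum.inr c : M.E ⊕ C) ∈ y
          · by_cases hcr : c ∈ range μ
            · obtain ⟨k, rfl⟩ := hcr
              exact Or.inr ⟨k, Or.inr ⟨k, hcy, subset_refl _⟩, rfl⟩
            · exact Or.inl (Or.inr ⟨hcy, c, hcr, rfl⟩)
          · exact Or.inl (Or.inl ⟨⟨hcx, hcy⟩, c, rfl⟩)
        · refine le_trans (Set.ncard_union_le _ _) ?_
          have := Set.ncard_union_le ((x \ y) ∩ range Sum.inr) (y ∩ V)
          omega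
      have e4 : rk M (Subtype.val '' J) ≤ rk M (cell M.E T U) +
          ((Sum.inl '' J \ x).ncard + ((x \ y) ∩ range Sum.inl).ncard) := by
        have f1 : rk M (Subtype.val '' J) ≤ rk M (cell M.E T U) +
            ((Subtype.val '' J \ cell M.E T U).ncard : ℤ) := by
          refine le_trans (rk_mono hM (B := cell M.E T U ∪ (Subtype.val '' J \ cell M.E T U)) ?_)
            (rk_union_le hM _ ((Set.toFinite J).image _ |>.subset sdiff_subset))
          intro e he
          by_cases h : e ∈ cell M.E T U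
          · exact Or.inl h
          · exact Or.inr ⟨he, h⟩
        have f2 : (Subtype.val '' J \ cell M.E T U).ncard ≤
            (Sum.inl '' J \ x).ncard + ((x \ y) ∩ range Sum.inl).ncard := by
          have f3 : (Subtype.val '' J \ cell M.E T U) ⊆
              Subtype.val '' (Sum.inl ⁻¹' ((Sum.inl '' J \ x) ∪ ((x \ y) ∩ range Sum.inl)) : Set M.E) := by
            rintro _ ⟨⟨e, he, rfl⟩, hn⟩
            refine ⟨e, ?_, rfl⟩
            have hny : (Sum.inl e : M.E ⊕ C) ∉ y := by
              intro hy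
              exact hn ⟨e.2, Or.inl ⟨e, hy, subset_refl _⟩⟩
            by_cases hx : (Sum.inl e : M.E ⊕ C) ∈ x
            · exact Or.inr ⟨⟨hx, hny⟩, e, rfl⟩
            · exact Or.inl ⟨⟨e, he, rfl⟩, hx⟩
          refine le_trans (Set.ncard_le_ncard f3 (Set.toFinite _)) ?_
          rw [Set.ncard_image_of_injective _ Subtype.val_injective]
          rw [← Set.ncard_image_of_injective (Sum.inl ⁻¹' _) (Sum.inl_injective (β := C))]
          refine le_trans (Set.ncard_le_ncard (image_preimage_subset _ _) (Set.toFinite _)) ?_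
          exact Set.ncard_union_le _ _
        omega
      have e5 : ((x \ y) ∩ range Sum.inl).ncard + ((x \ y) ∩ range Sum.inr).ncard ≤ (x \ y).ncard := by
        rw [← Set.ncard_union_eq]
        · refine Set.ncard_le_ncard ?_ (Set.toFinite _)
          rintro t (ht | ht)
          · exact ht.1
          · exact ht.1
        · rw [Set.disjoint_left]
          rintro t ⟨_, a, rfl⟩ ⟨_, b, hb⟩
          cases hb
      omega
  -- the isomorphism
  set φ : N.E ≃ M.E := (Equiv.setCongr hNE).trans (Equiv.ofInjective _ Sum.inl_injective).symm with hφ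
  have hφ' : ∀ t : N.E, (Sum.inl (φ t) : M.E ⊕ C) = t := by
    intro t
    rw [hφ]
    simp only [Equiv.trans_apply]
    exact Equiv.apply_ofInjective_symm Sum.inl_injective _
  refine ⟨M.E ⊕ C, inferInstance, G, V, range Sum.inl, N, hN, φ, fun I => ?_⟩
  have e1 : (Subtype.val '' I : Set (M.E ⊕ C)) = Sum.inl '' (φ '' I) := by
    ext t
    constructor
    · rintro ⟨s, hs, rfl⟩
      exact ⟨φ s, ⟨s, hs, rfl⟩, hφ' s⟩
    · rintro ⟨_, ⟨s, hs, rfl⟩, rfl⟩
      exact ⟨s, hs, (hφ' s).symm⟩
  have e2 : (Sum.inl '' (φ '' I) : Set (M.E ⊕ C)) ⊆ N.E := (image_subset_range _ _).trans hNE.symm.subset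
  rw [e1, indep_iff_rk hNf e2,
    indep_iff_rk hM (by rintro _ ⟨x, _, rfl⟩; exact x.2), hrk,
    Set.ncard_image_of_injective _ Sum.inl_injective,
    Set.ncard_image_of_injective _ Subtype.val_injective]

end

/-- The matroids of `Gn n` with at most `n` cyclic flats are gammoids. -/
theorem gammoid_of_gn' {α : Type} {M : Matroid α} (hM : M.E.Finite) {n : ℕ}
    (hn : {Z | IsCyclicFlat M Z}.ncard ≤ n) (h : Gn n α M) : Gammoid α M := by
  classical
  have hfin : {Z | IsCyclicFlat M Z}.Finite :=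
    hM.finite_subsets.subset fun Z hZ => hZ.1.subset_ground
  have hf1 : Finite {Z | IsCyclicFlat M Z} := hfin
  have hpos : 0 < Nat.card {Z | IsCyclicFlat M Z} := by
    obtain ⟨Z, hZ, _⟩ := exists_cyclicFlat hM (empty_subset M.E)
    have : Nonempty {Z | IsCyclicFlat M Z} := ⟨⟨Z, hZ⟩⟩
    exact Nat.card_pos
  obtain ⟨f, hf⟩ : ∃ f : Fin n → {Z | IsCyclicFlat M Z}, Function.Surjective f := by
    have e := (Finite.equivFin {Z | IsCyclicFlat M Z})
    refine ⟨fun i => e.symm ⟨i.1 % Nat.card {Z | IsCyclicFlat M Z}, Nat.mod_lt _ hpos⟩, fun A => ?_⟩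
    refine ⟨⟨(e A).1, lt_of_lt_of_le (e A).2 hn⟩, ?_⟩
    rw [Equiv.symm_apply_eq]
    ext
    exact Nat.mod_eq_of_lt (e A).2
  refine gammoid_of_cert' hM (T := fun i => (f i).1) (fun i => (f i).2.1.subset_ground)
    (fun A hA => ?_) (h.2 _ fun i => (f i).2.1.subset_ground)
  obtain ⟨Z, hZ, hle⟩ := exists_cyclicFlat hM hA
  obtain ⟨i, hi⟩ := hf ⟨Z, hZ⟩
  exact ⟨i, by rw [hi]; exact hle⟩

end Pool.Agent.H362CF
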